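import Pool.Agent.Helper242.KK.Main

/-!
# The Ki–Kim question: almost all zeros of `Ξ_λ` real for every `λ < 0`? No.
-/

set_option autoImplicit false

namespace Pool.Agent.Results.MP_023270_nt.NotAlmostAllReal

open Filter Topology MeasureTheory

/-- The kernel `Φ(t) = 2 ∑_{n ≥ 1} (2π²n⁴e^{9t/2} - 3πn²e^{5t/2}) e^{-πn²e^{2t}}`. -/
noncomputable def Phi (t : ℝ) : ℝ :=
  2 * ∑' n : ℕ+, (2 * Real.pi ^ 2 * (n : ℝ) ^ 4 * Real.exp (9 * t / 2) -
    3 * Real.pi * (n : ℝ) ^ 2 * Real.exp (5 * t / 2)) *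
      Real.exp (-(Real.pi * (n : ℝ) ^ 2 * Real.exp (2 * t)))

/-- The entire function `Ξ_λ(z) = ∫_{-∞}^{∞} Φ(t) e^{λt²} e^{izt} dt`. -/
noncomputable def Xi (lam : ℝ) (z : ℂ) : ℂ :=
  ∫ t : ℝ, ((Phi t : ℝ) : ℂ) * Complex.exp ((lam : ℂ) * (t : ℂ) ^ 2) *
    Complex.exp (Complex.I * z * (t : ℂ))

/-- The number of zeros of `f` in `S`, counted with multiplicity (an element of `[0, ∞]`):
the sum over the points of `S` of the order of vanishing of `f`. -/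
noncomputable def zeroCount (f : ℂ → ℂ) (S : Set ℂ) : ENNReal :=
  ∑' z : S, ((analyticOrderAt f (z : ℂ) : ℕ∞) : ENNReal)

/-- Almost all zeros of `Ξ_λ` are real:
`#{real zeros z, |z| ≤ T} / #{zeros z, |Re z| ≤ T} → 1` as `T → ∞`. -/
def AlmostAllReal (lam : ℝ) : Prop :=
  Tendsto (fun T : ℝ => zeroCount (Xi lam) {z | z.im = 0 ∧ ‖z‖ ≤ T} /
    zeroCount (Xi lam) {z | |z.re| ≤ T}) atTop (𝓝 1)

lemma Phi_eq (t : ℝ) : Phi t = Pool.Agent.Helper242.KK.Ph t := by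
  unfold Phi Pool.Agent.Helper242.KK.Ph Pool.Agent.Helper242.RK.Phi
  congr 1
  rw [tsum_pnat_eq_tsum_succ (f := fun n : ℕ => (2 * Real.pi ^ 2 * (n : ℝ) ^ 4 *
    Real.exp (9 * t / 2) - 3 * Real.pi * (n : ℝ) ^ 2 * Real.exp (5 * t / 2)) *
      Real.exp (-(Real.pi * (n : ℝ) ^ 2 * Real.exp (2 * t))))]
  refine tsum_congr fun n => ?_
  push_cast
  rw [show 9 * (t / 2) = 9 * t / 2 by ring, show 5 * (t / 2) = 5 * t / 2 by ring,
    show 4 * (t / 2) = 2 * t by ring]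
  ring_nf

lemma Xi_eq (lam : ℝ) : Xi lam = Pool.Agent.Helper242.KK.XiM (-lam) := by
  funext z
  unfold Xi Pool.Agent.Helper242.KK.XiM Pool.Agent.Helper242.KK.FT Pool.Agent.Helper242.KK.wk
  refine integral_congr_ae (Eventually.of_forall fun t => ?_)
  simp only [Phi_eq]
  push_cast
  rw [neg_neg]

lemma zeroCount_eq (f : ℂ → ℂ) (S : Set ℂ) :
    zeroCount f S = Pool.Agent.Helper242.KK.zc f S := rfl

/-- **Main theorem.** There is an `L > 0` such that for every `λ ≤ -L` it is not true that almost all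
zeros of `Ξ_λ` are real. -/
theorem result : ∃ L : ℝ, 0 < L ∧ ∀ lam : ℝ, lam ≤ -L → ¬ AlmostAllReal lam := by
  have hball : ∀ T : ℝ, Metric.closedBall (0 : ℂ) T = {z | ‖z‖ ≤ T} := by
    intro T; ext z; simp
  obtain ⟨L, hL, h⟩ := Pool.Agent.Helper242.KK.main_XiM (ε := 1 / 2) (by norm_num) (by norm_num)
  refine ⟨L, hL, fun lam hlam => ?_⟩
  refine Pool.Agent.Helper242.KK.not_tendsto_of_frequently (ε := 1 / 2) le_rfl ?_
  refine (h (-lam) (by linarith)).mono fun T hT => ?_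
  simpa only [Xi_eq] using hT

end Pool.Agent.Results.MP_023270_nt.NotAlmostAllReal
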