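import Pool.Agent.Helper242.KK.Main

/-!
# The proportion of real zeros of `Ξ_λ` is small infinitely often for very negative `λ`
-/

set_option autoImplicit false

namespace Pool.Agent.Results.MP_023270_nt.RealProportionSmall

open Filter Topology MeasureTheory

/-- The kernel `Φ(t) = 2 ∑_{n ≥ 1} (2π²n⁴e^{9t/2} - 3πn²e^{5t/2}) e^{-πn²e^{2t}}`. -/
noncomputable def Phi (t : ℝ) : ℝ :=
  2 * ∑' n : ℕ+, (2 * Real.pi ^ 2 * (n : ℝ) ^ 4 * Real.exp (9 * t / 2) -
    3 * Real.pi * (n : ℝ) ^ 2 * Real.exp (5 * t / 2)) *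
      Real.exp (-(Real.pi * (n : ℝ) ^ 2 * Real.exp (2 * t)))

/-- The entire function `Ξ_λ(z) = ∫_{-∞}^{∞} Φ(t) e^{λt²} e^{izt} dt`. -/
noncomputable def Xi (lam : ℝ) (z : ℂ) : ℂ :=
  ∫ t : ℝ, ((Phi t : ℝ) : ℂ) * Complex.exp ((lam : ℂ) * (t : ℂ) ^ 2) *
    Complex.exp (Complex.I * z * (t : ℂ))

/-- The number of zeros of `f` in `S`, counted with multiplicity (an element of `[0, ∞]`):
the sum over the points of `S` of the order of vanishing of `f`. -/
noncomputable def zeroCount (f : ℂ → ℂ) (S : Set ℂ) : ENNReal :=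
  ∑' z : S, ((analyticOrderAt f (z : ℂ) : ℕ∞) : ENNReal)

lemma Phi_eq (t : ℝ) : Phi t = Pool.Agent.Helper242.KK.Ph t := by
  unfold Phi Pool.Agent.Helper242.KK.Ph Pool.Agent.Helper242.RK.Phi
  congr 1
  rw [tsum_pnat_eq_tsum_succ (f := fun n : ℕ => (2 * Real.pi ^ 2 * (n : ℝ) ^ 4 *
    Real.exp (9 * t / 2) - 3 * Real.pi * (n : ℝ) ^ 2 * Real.exp (5 * t / 2)) *
      Real.exp (-(Real.pi * (n : ℝ) ^ 2 * Real.exp (2 * t))))]
  refine tsum_congr fun n => ?_
  push_cast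
  rw [show 9 * (t / 2) = 9 * t / 2 by ring, show 5 * (t / 2) = 5 * t / 2 by ring,
    show 4 * (t / 2) = 2 * t by ring]
  ring_nf

lemma Xi_eq (lam : ℝ) : Xi lam = Pool.Agent.Helper242.KK.XiM (-lam) := by
  funext z
  unfold Xi Pool.Agent.Helper242.KK.XiM Pool.Agent.Helper242.KK.FT Pool.Agent.Helper242.KK.wk
  refine integral_congr_ae (Eventually.of_forall fun t => ?_)
  simp only [Phi_eq]
  push_cast
  rw [neg_neg]

lemma zeroCount_eq (f : ℂ → ℂ) (S : Set ℂ) :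
    zeroCount f S = Pool.Agent.Helper242.KK.zc f S := rfl

/-- For every `ε > 0` and all sufficiently negative `λ`, the number of zeros of `Ξ_λ` in every disc
`|z| ≤ T` is finite, and there are arbitrarily large `T` such that the number of real zeros in
`[-T, T]` is less than `ε` times the number of zeros in the disc `|z| ≤ T`. -/
theorem result : ∀ ε : ℝ, 0 < ε → ∃ L : ℝ, 0 < L ∧ ∀ lam : ℝ, lam ≤ -L →
      (∀ T : ℝ, zeroCount (Xi lam) {z | ‖z‖ ≤ T} < ⊤) ∧
      ∃ᶠ T : ℝ in atTop, zeroCount (Xi lam) {z | z.im = 0 ∧ ‖z‖ ≤ T} <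
        ENNReal.ofReal ε * zeroCount (Xi lam) {z | ‖z‖ ≤ T} := by
  have hball : ∀ T : ℝ, Metric.closedBall (0 : ℂ) T = {z | ‖z‖ ≤ T} := by
    intro T; ext z; simp
  intro ε hε
  obtain ⟨L, hL, h⟩ := Pool.Agent.Helper242.KK.main_XiM (ε := min ε 1) (lt_min hε one_pos)
    (min_le_right _ _)
  refine ⟨L, hL, fun lam hlam => ⟨fun T => ?_, ?_⟩⟩
  · rw [zeroCount_eq, Xi_eq, ← hball]
    exact Pool.Agent.Helper242.KK.XiM_ball_lt_top (by linarith) T
  · refine (h (-lam) (by linarith)).mono fun T hT => ?_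
    rw [zeroCount_eq, zeroCount_eq, Xi_eq, ← hball]
    refine hT.trans_le ?_
    gcongr
    exact min_le_left _ _

end Pool.Agent.Results.MP_023270_nt.RealProportionSmall
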